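import Mathlib
import Pool.Agent.H9.Er2.Final3

/-!
An oracle relative to which the polynomial hierarchy is infinite, with unambiguous hard languages
and almost exponential lower bounds at every level, although every distributional problem in the
hierarchy has an errorless polynomial-time heuristic with negligible failure probability.
-/

set_option autoImplicit false

namespace Pool.Agent.H9.Parked.ErrorlessPH

open Pool.Agent.H9
open Pool.Agent.H8u (AUSigmaP)

/-- For every `k` let `T k 0, T k 1, T k 2, ...` be time bounds of the form
`2^{o(n / (log n)^{k+1})}`. There is an oracle `A` such that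
* all inclusions between consecutive levels of the polynomial hierarchy relative to `A` are strict;
* for every `k` some language lies together with its complement in the level `k + 1` of
  unambiguous alternation relative to `A`, but is not decided relative to `A` by alternating
  machines with `k` blocks (starting with either quantifier) of length `T k i` in time `T k j`;
* for every language `L` of the polynomial hierarchy relative to `A` and every sampler `G`
  (polynomial time with oracle `A`, with `m(n)` random bits for the parameter `n`) there is a
  deterministic polynomial-time algorithm `B` with oracle `A` which on all inputs `(y, x)` gives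
  one of the answers yes, no, or no answer (`[true]`, `[false]`, `[]`), is never wrong about
  `x ∈ L`, and, for every `c` and all but finitely many `(n, l)`, gives no answer on
  `(1^{n+l}, x)`, where `x` is the sampled string with parameter `n`, for at most a fraction
  `1 / (n + l)^c` of the random strings `r`. -/
theorem result (T : ℕ → ℕ → ℕ → ℕ)
    (hT : ∀ k i, ∀ r > 0, ∃ n0, ∀ n ≥ n0, T k i n ≤ 2 ^ (n / (r * Nat.log 2 n ^ (k + 1)))) :
    ∃ A : Oracle,
      (∀ k, SigmaP A k ⊂ SigmaP A (k + 1)) ∧
      (∀ k, ∃ L ∈ AUSigmaP A (k + 1), Lᶜ ∈ AUSigmaP A (k + 1) ∧
        ∀ e i j, L ∉ AltTime A e k (T k i) (T k j)) ∧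
      ∀ k, ∀ L ∈ SigmaP A k, ∀ (G : Prog) (m : Polynomial ℕ), PolyTime A 2 G →
        ∃ B : Prog, PolyTime A 2 B ∧
          (∀ y x : List Bool, ∃ z, Outputs A B [y, x] z ∧
            (z = [] ∨ (z = [true] ∧ x ∈ L) ∨ (z = [false] ∧ x ∉ L))) ∧
          ∀ c, ∃ n0, ∀ n l, n0 ≤ n + l →
            (n + l) ^ c * Set.ncard {r : List Bool | r.length = m.eval n ∧ ∃ x : List Bool,
              Outputs A G [List.replicate n true, r] x ∧
              Outputs A B [List.replicate (n + l) true, x] []} ≤ 2 ^ (m.eval n) :=
  Pool.Agent.Er9.errorless T hT

end Pool.Agent.H9.Parked.ErrorlessPH
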