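import Pool.Agent.H58.SP.FixAll

/-!
# k-clique: circuits with linear programming gates, span gates and almost 2 log n negations

The gates have real values. A gate is a test of adjacency (value 1 or 0), the maximum of any number
of nondecreasing functions of at most six gates each, a linear programme, a span gate, or a special
gate, which computes an arbitrary Boolean function of gates with values 0 and 1 (for instance a NOT
gate).

A linear programme has any number of real unknowns `p`, any number of linear equations, some
inequalities `0 ≤ ineq r p + ∑ j, rhs r j * a j` and the objective function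
`obj p + ∑ j, a j * wt j p`. Here the `a j` are the values of the gates which it reads, the numbers
`rhs r j` are nonnegative, `ineq r`, `obj` and `wt j` are affine functions of `p`, and the `wt j` are
nonnegative at all feasible points. The value of the gate is the optimum, cut off at two numbers.
(So AND and OR gates of any fan-in are linear programmes: maximise `t` subject to `t ≤ a j` for all
`j`, or maximise `∑ j, a j`, cut off at 1.)

A span programme consists of a target vector and some rows, which are vectors over a field whose
characteristic is not 2; row `r` may be used if `thr r ≤ a (lab r)`. It accepts if the target is a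
linear combination of the rows which may be used. A span gate is a function `φ` of the gates which
it reads such that for every `t` some span programme decides whether `t ≤ φ a`. (For instance `φ` is
1 if a given span programme accepts and 0 if not.) Different programmes may use different fields.

A gate is watched if it is read by a special gate.

For every `μ < 2` there are `c > 0` and `n₀` such that for all `n ≥ n₀`, `2 ≤ k ≤ n ^ c` and
`M ≤ n ^ (c k)` the following holds for the circuits whose linear programmes have at most `M`
inequalities and whose span programmes have at most `M` rows.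

1. Let a circuit have at most `M` gates, and let the value of its output gate be at least `θ` exactly
   at the graphs on `n` vertices with a `k`-clique, or exactly at the graphs without `k`-cliques.
   There is a chain of graphs with at least `n ^ μ` steps such that at every step some watched gate
   changes its value. (In particular there are special gates.)
2. If its gates are arranged in levels of nesting of the special gates, then
   `∏ a, (1 + w a) ≥ n ^ μ`, where `w a` is the number of watched gates of level `a`.
3. More generally let the property be decided by `Q₀ y₀ ... Q_{q-1} y_{q-1} θ_y ≤ C_y`, where the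
   `Q_i` are quantifiers over bits and the `C_y` are circuits with `s` gates,
   `2 ^ q * (s + 1) ≤ M`. If in each of them at most `r` gates are special, each reading at most
   `t` gates, then `t * 2 ^ (q + r) ≥ n ^ μ`.
-/

namespace Pool.Agent.Results.MP_ba3460_lc.LinearPrograms

open Pool.Agent.H58.LM (Quantified)
open Pool.Agent.H58.SP (Circuit)

theorem result (μ : ℝ) (hμ : μ < 2) : ∃ c : ℝ, 0 < c ∧ ∃ n₀ : ℕ, ∀ n ≥ n₀, ∀ k : ℕ,
    2 ≤ k → (k : ℝ) ≤ (n : ℝ) ^ c → ∀ M : ℕ, (M : ℝ) ≤ (n : ℝ) ^ (c * k) →
    (∀ (s : ℕ) (C : Circuit n s M) (out : Fin s) (θ : ℝ), s ≤ M →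
      ((∀ G : SimpleGraph (Fin n), θ ≤ C.val out G ↔ ¬ G.CliqueFree k) ∨
        (∀ G : SimpleGraph (Fin n), θ ≤ C.val out G ↔ G.CliqueFree k)) →
      (∃ A : ℕ, (n : ℝ) ^ μ ≤ A ∧ ∃ y : ℕ → SimpleGraph (Fin n), Monotone y ∧
          ∀ a < A, ∃ i ∈ C.watched, C.val i (y a) ≠ C.val i (y (a + 1))) ∧
      (∀ (d : ℕ) (lev : Fin s → ℕ), (∀ i, ∀ j ∈ C.ins i, lev j ≤ lev i) →
        (∀ i ∈ C.special, ∀ j ∈ C.ins i, lev j < lev i) → (∀ j ∈ C.watched, lev j < d) →
        (n : ℝ) ^ μ ≤
          ∏ a ∈ Finset.range d, (1 + ((C.watched.filter fun j => lev j = a).card : ℝ)))) ∧
    (∀ (q s r t : ℕ) (Q : Fin q → Bool) (C : (Fin q → Bool) → Circuit n s M)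
      (out : (Fin q → Bool) → Fin s) (θ : (Fin q → Bool) → ℝ), 2 ^ q * (s + 1) ≤ M →
      (∀ y, (C y).special.card ≤ r) → (∀ y, ∀ i ∈ (C y).special, ((C y).ins i).card ≤ t) →
      ((∀ G : SimpleGraph (Fin n),
          Quantified q Q (fun y => θ y ≤ (C y).val (out y) G) ↔ ¬ G.CliqueFree k) ∨
        (∀ G : SimpleGraph (Fin n),
          Quantified q Q (fun y => θ y ≤ (C y).val (out y) G) ↔ G.CliqueFree k)) →
      (n : ℝ) ^ μ ≤ t * 2 ^ (q + r)) :=
  Pool.Agent.H58.SP.fixed_asymp hμ

end Pool.Agent.Results.MP_ba3460_lc.LinearPrograms
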