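import Pool.Agent.H35.CK.Fin

/-!
# n^Ω(k) for general resolution, cutting planes and semialgebraic refutations of k-clique formulas of a fixed graph

There is a constant `C` such that for all `K ≥ C` and `N ≥ K ^ C` there is a `K`-partite graph with `N` vertices per part and no
`K`-clique such that every resolution refutation and every semantic cutting planes refutation of its unary `K`-clique formula, and
every two-sided semialgebraic refutation of `some choice of one vertex per part is a clique`, has at least `N ^ (K / C)` lines.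

The definitions are in `Pool/Agent/H35/CL/Stmt.lean` (`ResolutionOf`, `KClique`) and `Pool/Agent/H1/CL/SemiStmt.lean`
(`CuttingPlanesWith`, `SemiRefutation`).
-/

namespace Pool.Agent.Results.MP_ba3460_lc.UnaryClique

open Pool.Agent.H35.CL

theorem result : ∃ C : ℕ, 0 < C ∧ ∀ K N : ℕ, C ≤ K → K ^ C ≤ N →
    ∃ (G : SimpleGraph (Fin K × Fin N)) (A : Finset (Fin K)), (∀ i a b, ¬ G.Adj (i, a) (i, b)) ∧ G.CliqueFree K ∧
      (∀ S R, ResolutionOf (KClique G K) S R → (N : ℝ) ^ ((K : ℝ) / C) ≤ S) ∧
      (∀ q r S c b, C * r ≤ K → ((q + 1) * 2 ^ r) ^ C ≤ N → CuttingPlanesWith (KClique G K) q r S c b →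
        (N : ℝ) ^ ((K : ℝ) / C) ≤ S) ∧
      ∀ (W : Submodule ℝ ((Fin K → Fin N) → ℝ)) q r S f, C * r ≤ K → ((Module.finrank ℝ W * q + 1) * 2 ^ r) ^ C ≤ N →
        SemiRefutation G A W q r S f → (N : ℝ) ^ ((K : ℝ) / C) ≤ S :=
  unary_clique_wide

end Pool.Agent.Results.MP_ba3460_lc.UnaryClique
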